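import Mathlib

/-!
# Synchronization games with bounded responses

Automata, the `k`-game, strategies of Alice, and the length of the game.
-/

set_option autoImplicit false

namespace Pool.Agent.R561.SG

/-- A deterministic finite automaton without initial and final states: finite non-empty sets `Q` of
states and `S` of letters and a total transition map. -/
structure Aut where
  /-- the states -/
  Q : Type
  /-- the letters -/
  S : Type
  [finQ : Finite Q]
  [neQ : Nonempty Q]
  [finS : Finite S]
  [neS : Nonempty S]
  /-- the transition map -/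
  δ : Q → S → Q

attribute [instance] Aut.finQ Aut.neQ Aut.finS Aut.neS

variable (A : Aut)

/-- The action of a word on a state. -/
def Aut.run (q : A.Q) (w : List A.S) : A.Q := w.foldl A.δ q

/-- The action of a word on a set of states. -/
def Aut.img (P : Set A.Q) (w : List A.S) : Set A.Q := (fun q => A.run q w) '' P

/-- A strategy of Alice chooses her next letter from the answers which Bob has given so far, the
most recent one first. -/
abbrev Aut.Strategy := List (List A.S) → A.S

/-- The current set when Alice has to choose her next letter, she plays according to `σ`, and Bob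
has given the answers `h` so far (the most recent one first). -/
def Aut.pos (σ : A.Strategy) : List (List A.S) → Set A.Q
  | [] => Set.univ
  | u :: h => A.img (A.img (Aut.pos σ h) [σ h]) u

/-- The first `m` answers of Bob, the most recent one first. -/
def answers {S : Type} (τ : ℕ → List S) : ℕ → List (List S)
  | 0 => []
  | m + 1 => τ m :: answers τ m

/-- With her `m`-th letter (counted from `0`) Alice makes the current set a singleton, if she plays
according to `σ` and the answers of Bob are given by `τ`. -/
def Aut.WinsAt (σ : A.Strategy) (τ : ℕ → List A.S) (m : ℕ) : Prop :=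
  (A.img (A.pos σ (answers τ m)) [σ (answers τ m)]).ncard = 1

/-- In the `k`-game the answers of Bob have length at most `k`. -/
def Aut.Legal (k : ℕ) (τ : ℕ → List A.S) : Prop := ∀ i, (τ i).length ≤ k

/-- Alice has a winning strategy in the `k`-game. -/
def Aut.IsA (k : ℕ) : Prop :=
  ∃ σ : A.Strategy, ∀ τ : ℕ → List A.S, A.Legal k τ → ∃ m, A.WinsAt σ τ m

/-- The strategy `σ` wins the `k`-game within at most `N` moves of Alice, whatever Bob plays. -/
def Aut.WinsWithin (k : ℕ) (σ : A.Strategy) (N : ℕ) : Prop :=
  ∀ τ : ℕ → List A.S, A.Legal k τ → ∃ m < N, A.WinsAt σ τ m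

/-- The length of the `k`-game: the least `N` such that Alice has a strategy that wins within at
most `N` of her moves. -/
noncomputable def Aut.gameLength (k : ℕ) : ℕ :=
  sInf {N | ∃ σ : A.Strategy, A.WinsWithin k σ N}

/-! ### The recursive description of the game -/

/-- Alice, who is to move in the current set `P`, can win within `N` of her moves. -/
def Aut.WinsIn (k : ℕ) : ℕ → Set A.Q → Prop
  | 0, _ => False
  | N + 1, P => ∃ a : A.S, (A.img P [a]).ncard = 1 ∨
      ∀ u : List A.S, u.length ≤ k → Aut.WinsIn k N (A.img (A.img P [a]) u)

variable {A}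

theorem Aut.WinsIn.mono {k N M : ℕ} {P : Set A.Q} (h : A.WinsIn k N P) (hNM : N ≤ M) :
    A.WinsIn k M P := by
  induction N generalizing M P with
  | zero => exact h.elim
  | succ N ih =>
    obtain ⟨M, rfl⟩ : ∃ M', M = M' + 1 := ⟨M - 1, by omega⟩
    obtain ⟨a, ha⟩ := h
    refine ⟨a, ha.imp_right fun h u hu => ih (h u hu) (by omega)⟩

theorem exists_strategy {k N : ℕ} (h : A.WinsIn k N Set.univ) :
    ∃ σ : A.Strategy, A.WinsWithin k σ N := by
  classical
  -- a good letter
  let good : ℕ → Set A.Q → A.S → Prop := fun n P a => (A.img P [a]).ncard = 1 ∨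
      ∀ u : List A.S, u.length ≤ k → A.WinsIn k (n - 1) (A.img (A.img P [a]) u)
  let pick : ℕ → Set A.Q → A.S := fun n P =>
    if h : ∃ a, good n P a then h.choose else Classical.arbitrary A.S
  let pos' : List (List A.S) → Set A.Q := fun h => h.rec Set.univ
    (fun u h P => A.img (A.img P [pick (N - h.length) P]) u)
  let σ : A.Strategy := fun h => pick (N - h.length) (pos' h)
  have hpos : ∀ h, A.pos σ h = pos' h := by
    intro h
    induction h with
    | nil => rfl
    | cons u h ih =>
      show A.img (A.img (A.pos σ h) [σ h]) u = A.img (A.img (pos' h) [pick (N - h.length) (pos' h)]) u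
      rw [ih]
  have hlen : ∀ (τ : ℕ → List A.S) m, (answers τ m).length = m := by
    intro τ m
    induction m with
    | zero => rfl
    | succ m ih => simp [answers, ih]
  refine ⟨σ, fun τ hτ => ?_⟩
  have key : ∀ m ≤ N, (∃ m' < m, A.WinsAt σ τ m') ∨ A.WinsIn k (N - m) (A.pos σ (answers τ m)) := by
    intro m
    induction m with
    | zero => intro _; right; exact h
    | succ m ih =>
      intro hm
      rcases ih (by omega) with ⟨m', h1, h2⟩ | h3
      · exact Or.inl ⟨m', by omega, h2⟩
      · have hNm : N - m = (N - (m + 1)) + 1 := by omega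
        have hex : ∃ a, good (N - m) (A.pos σ (answers τ m)) a := by
          rw [hNm] at h3
          obtain ⟨a, ha⟩ := h3
          refine ⟨a, ?_⟩
          have e : N - m - 1 = N - (m + 1) := by omega
          simpa only [good, e] using ha
        have hσ : σ (answers τ m) = pick (N - m) (A.pos σ (answers τ m)) := by
          show pick (N - (answers τ m).length) (pos' (answers τ m)) = _
          rw [hlen, hpos]
        have hg : good (N - m) (A.pos σ (answers τ m)) (σ (answers τ m)) := by
          rw [hσ]
          simp only [pick, dif_pos hex]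
          exact hex.choose_spec
        rcases hg with hg | hg
        · exact Or.inl ⟨m, by omega, hg⟩
        · right
          have e : N - m - 1 = N - (m + 1) := by omega
          have := hg (τ m) (hτ m)
          rw [e] at this
          exact this
  rcases key N le_rfl with h1 | h1
  · exact h1
  · rw [Nat.sub_self] at h1
    exact h1.elim

theorem winsIn_of_strategy {k N : ℕ} {σ : A.Strategy} (h : A.WinsWithin k σ N) :
    A.WinsIn k N Set.univ := by
  classical
  by_contra hN
  let bad : List (List A.S) → List A.S → Prop := fun h u => u.length ≤ k ∧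
    ¬ A.WinsIn k (N - (h.length + 1)) (A.img (A.img (A.pos σ h) [σ h]) u)
  let reply : List (List A.S) → List A.S := fun h =>
    if hb : ∃ u, bad h u then hb.choose else []
  have hreply : ∀ h, (reply h).length ≤ k := by
    intro h
    by_cases hb : ∃ u, bad h u
    · simp only [reply, dif_pos hb]
      exact hb.choose_spec.1
    · simp only [reply, dif_neg hb]
      simp
  let H : ℕ → List (List A.S) := fun m => m.rec [] (fun _ h => reply h :: h)
  let τ : ℕ → List A.S := fun m => reply (H m)
  have hH : ∀ m, answers τ m = H m := by
    intro m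
    induction m with
    | zero => rfl
    | succ m ih =>
      show τ m :: answers τ m = reply (H m) :: H m
      rw [ih]
  have hlen : ∀ m, (H m).length = m := by
    intro m
    induction m with
    | zero => rfl
    | succ m ih =>
      show (reply (H m) :: H m).length = m + 1
      simp [ih]
  have key : ∀ m ≤ N, ¬ A.WinsIn k (N - m) (A.pos σ (H m)) := by
    intro m
    induction m with
    | zero => intro _; exact hN
    | succ m ih =>
      intro hm hw
      have h1 := ih (by omega)
      have hNm : N - m = (N - (m + 1)) + 1 := by omega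
      rw [hNm] at h1
      have h2 : ∃ u, bad (H m) u := by
        by_contra hc
        apply h1
        refine ⟨σ (H m), Or.inr fun u hu => ?_⟩
        by_contra hc'
        apply hc
        refine ⟨u, hu, ?_⟩
        rw [hlen]
        exact hc'
      have h3 := h2.choose_spec.2
      rw [hlen] at h3
      apply h3
      have h4 : A.pos σ (H (m + 1)) = A.img (A.img (A.pos σ (H m)) [σ (H m)]) (reply (H m)) := rfl
      rw [h4] at hw
      simp only [reply, dif_pos h2] at hw
      exact hw
  obtain ⟨m, hm, hw⟩ := h τ fun m => hreply _
  have h1 := key m (by omega)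
  have hNm : N - m = (N - (m + 1)) + 1 := by omega
  rw [hNm] at h1
  apply h1
  refine ⟨σ (H m), Or.inl ?_⟩
  rw [Aut.WinsAt, hH] at hw
  exact hw

theorem isA_of_winsIn {k N : ℕ} (h : A.WinsIn k N Set.univ) : A.IsA k := by
  obtain ⟨σ, hσ⟩ := exists_strategy h
  refine ⟨σ, fun τ hτ => ?_⟩
  obtain ⟨m, _, hm⟩ := hσ τ hτ
  exact ⟨m, hm⟩

theorem lt_gameLength {k N M : ℕ} (h : A.WinsIn k N Set.univ) (hM : ¬ A.WinsIn k M Set.univ) :
    M < A.gameLength k := by
  have hne : {N | ∃ σ : A.Strategy, A.WinsWithin k σ N}.Nonempty := ⟨N, exists_strategy h⟩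
  obtain ⟨σ, hσ⟩ := Nat.sInf_mem hne
  by_contra hc
  exact hM ((winsIn_of_strategy hσ).mono (not_lt.1 hc))

/-! ### Winning positions of Alice -/

/-- Alice wins from the current set `P`. -/
def Win (A : Aut) (k : ℕ) (P : Set A.Q) : Prop := ∃ N, A.WinsIn k N P

theorem Win.of_ncard {k : ℕ} {P : Set A.Q} (a : A.S) (h : (A.img P [a]).ncard = 1) : Win A k P :=
  ⟨1, a, Or.inl h⟩

theorem Win.step {k : ℕ} {P : Set A.Q} (a : A.S)
    (h : ∀ u : List A.S, u.length ≤ k → Win A k (A.img (A.img P [a]) u)) : Win A k P := by
  classical
  choose! f hf using h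
  have hfin : {u : List A.S | u.length ≤ k}.Finite := List.finite_length_le _ _
  obtain ⟨M, hM⟩ := (hfin.image f).bddAbove
  refine ⟨M + 1, a, Or.inr fun u hu => (hf u hu).mono (hM ⟨u, hu, rfl⟩)⟩

theorem img_nil (P : Set A.Q) : A.img P [] = P := by
  simp [Aut.img, Aut.run]

theorem img_img (P : Set A.Q) (u v : List A.S) : A.img (A.img P u) v = A.img P (u ++ v) := by
  simp only [Aut.img, Set.image_image, Aut.run, List.foldl_append]

theorem img_singleton (q : A.Q) (u : List A.S) : A.img {q} u = {A.run q u} := by
  simp [Aut.img]

theorem Win.singleton {k : ℕ} (q : A.Q) : Win A k {q} := by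
  refine Win.of_ncard (Classical.arbitrary A.S) ?_
  rw [img_singleton, Set.ncard_singleton]

end Pool.Agent.R561.SG
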