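import Pool.Agent.R561.SG.Defs

/-!
# The two-clock automaton

States: two cycles `ZMod p`, `ZMod q` (Alice's phase), copies of these and two more states (Bob's
phase). Letters of Alice: `0` turns both cycles, `1` takes the tokens at the two zeros away (both
into the same state), `2` takes the token at the zero of the second cycle away. Letters of Bob:
pairs `(e, i)`, which put the tokens back, to the position `e` of the second cycle and to the
position `i` of the first one.
-/

set_option autoImplicit false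

namespace Pool.Agent.R561.SG

variable (p q : ℕ) [NeZero p] [NeZero q]

/-- The states. -/
abbrev St (p q : ℕ) : Type := (ZMod p ⊕ ZMod q) ⊕ ((ZMod p ⊕ ZMod q) ⊕ Bool)

/-- The letters. -/
abbrev Lt (p q : ℕ) : Type := Fin 3 ⊕ (ZMod q × ZMod p)

/-- The transitions of Alice's letters on the states of Alice's phase. -/
def amove (p q : ℕ) (α : Fin 3) : ZMod p ⊕ ZMod q → (ZMod p ⊕ ZMod q) ⊕ Bool
  | .inl x => if α = 0 then .inl (.inl (x + 1)) else if α = 1 ∧ x = 0 then .inr true
      else .inl (.inl x)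
  | .inr y => if α = 0 then .inl (.inr (y + 1)) else if α = 1 ∧ y = 0 then .inr true
      else if α = 2 ∧ y = 0 then .inr false else .inl (.inr y)

/-- The transitions of Bob's letters on the states of Bob's phase. -/
def bmove (p q : ℕ) (r : ZMod q × ZMod p) : (ZMod p ⊕ ZMod q) ⊕ Bool → ZMod p ⊕ ZMod q
  | .inl z => z
  | .inr true => .inr r.1
  | .inr false => .inl r.2

/-- The transition map. -/
def trans (p q : ℕ) : St p q → Lt p q → St p q
  | .inl z, .inl α => .inr (amove p q α z)
  | .inl z, .inr _ => .inl z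
  | .inr _, .inl _ => .inr (.inr true)
  | .inr z, .inr r => .inl (bmove p q r z)

/-- The two-clock automaton. -/
def clock : Aut where
  Q := St p q
  S := Lt p q
  finQ := inferInstance
  neQ := ⟨.inr (.inr true)⟩
  finS := inferInstance
  neS := ⟨.inl 0⟩
  δ := trans p q

theorem card_clock : Nat.card (clock p q).Q = 2 * (p + q) + 2 := by
  show Nat.card (St p q) = _
  simp only [St, Nat.card_eq_fintype_card, Fintype.card_sum, ZMod.card, Fintype.card_bool]
  ring

variable {p q}

/-- The letters of Alice. -/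
def la (α : Fin 3) : (clock p q).S := Sum.inl α

/-- The letters of Bob. -/
def lb (r : ZMod q × ZMod p) : (clock p q).S := Sum.inr r

/-- The set consists of states of Alice's phase. -/
def APhase (P : Set (clock p q).Q) : Prop := ∀ z ∈ P, ∃ x : ZMod p ⊕ ZMod q, z = Sum.inl x

/-- The set consists of states of Bob's phase. -/
def BPhase (P : Set (clock p q).Q) : Prop :=
  ∀ z ∈ P, ∃ x : (ZMod p ⊕ ZMod q) ⊕ Bool, z = Sum.inr x

theorem run_cons (A : Aut) (z : A.Q) (a : A.S) (w : List A.S) :
    A.run z (a :: w) = A.run (A.δ z a) w := rfl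

theorem run_nil (A : Aut) (z : A.Q) : A.run z [] = z := rfl

theorem letter_cases (a : (clock p q).S) : (∃ α, a = la α) ∨ ∃ r, a = lb r := by
  rcases a with α | r
  · exact Or.inl ⟨α, rfl⟩
  · exact Or.inr ⟨r, rfl⟩

theorem APhase.la {P : Set (clock p q).Q} (h : APhase P) (α : Fin 3) :
    BPhase ((clock p q).img P [la α]) := by
  rintro _ ⟨z, hz, rfl⟩
  obtain ⟨x, rfl⟩ := h z hz
  exact ⟨_, rfl⟩

theorem APhase.lb {P : Set (clock p q).Q} (h : APhase P) (r : ZMod q × ZMod p) :
    (clock p q).img P [lb r] = P := by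
  ext z
  constructor
  · rintro ⟨z, hz, rfl⟩
    obtain ⟨x, rfl⟩ := h z hz
    exact hz
  · intro hz
    obtain ⟨x, rfl⟩ := h z hz
    exact ⟨_, hz, rfl⟩

/-- The state reached by both tokens which are taken away by the letter `1`. -/
def uu : (clock p q).Q := Sum.inr (Sum.inr true)

theorem BPhase.la {P : Set (clock p q).Q} (h : BPhase P) (hne : P.Nonempty) (α : Fin 3) :
    (clock p q).img P [la α] = {uu} := by
  apply Set.eq_singleton_iff_nonempty_unique_mem.2
  refine ⟨hne.image _, ?_⟩
  rintro _ ⟨z, hz, rfl⟩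
  obtain ⟨x, rfl⟩ := h z hz
  rfl

theorem BPhase.lb {P : Set (clock p q).Q} (h : BPhase P) (r : ZMod q × ZMod p) :
    APhase ((clock p q).img P [lb r]) := by
  rintro _ ⟨z, hz, rfl⟩
  obtain ⟨x, rfl⟩ := h z hz
  exact ⟨_, rfl⟩

theorem BPhase.win {P : Set (clock p q).Q} (h : BPhase P) (hne : P.Nonempty) (k : ℕ) :
    Win (clock p q) k P := by
  refine Win.of_ncard (SG.la 0) ?_
  rw [h.la hne, Set.ncard_singleton]

theorem img_cons (A : Aut) (P : Set A.Q) (a : A.S) (w : List A.S) :
    A.img P (a :: w) = A.img (A.img P [a]) w := by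
  rw [img_img]; rfl

theorem img_nonempty {A : Aut} {P : Set A.Q} (h : P.Nonempty) (w : List A.S) :
    (A.img P w).Nonempty := h.image _

theorem words_two (A : Aut) (u : List A.S) (h : u.length ≤ 2) :
    u = [] ∨ (∃ a, u = [a]) ∨ ∃ a b, u = [a, b] := by
  match u, h with
  | [], _ => exact Or.inl rfl
  | [a], _ => exact Or.inr (Or.inl ⟨a, rfl⟩)
  | [a, b], _ => exact Or.inr (Or.inr ⟨a, b, rfl⟩)
  | a :: b :: c :: l, h => simp at h

/-- The main reduction: after a move of Alice in her phase, the only answers of Bob that need to be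
considered are his letters. -/
theorem APhase.round {P : Set (clock p q).Q} (h : APhase P) (hne : P.Nonempty) (α : Fin 3)
    (hw : ∀ r, Win (clock p q) 2 ((clock p q).img P [SG.la α, SG.lb r])) :
    Win (clock p q) 2 P := by
  refine Win.step (SG.la α) fun u hu => ?_
  have hB : BPhase ((clock p q).img P [SG.la α]) := h.la α
  have hBne : ((clock p q).img P [SG.la α]).Nonempty := hne.image _
  have hw' : ∀ r, Win (clock p q) 2 ((clock p q).img ((clock p q).img P [SG.la α]) [SG.lb r]) := by
    intro r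
    have := hw r
    rwa [img_cons] at this
  rcases words_two _ u hu with rfl | ⟨a, rfl⟩ | ⟨a, b, rfl⟩
  · rw [img_nil]
    exact hB.win hBne 2
  · rcases letter_cases a with ⟨β, rfl⟩ | ⟨r, rfl⟩
    · rw [hB.la hBne]
      exact Win.singleton _
    · exact hw' r
  · rw [img_cons]
    rcases letter_cases a with ⟨β, rfl⟩ | ⟨r, rfl⟩
    · rw [hB.la hBne, img_singleton]
      exact Win.singleton _
    · rcases letter_cases b with ⟨β, rfl⟩ | ⟨r', rfl⟩
      · exact ((hB.lb r).la β).win (img_nonempty (img_nonempty hBne _) _) 2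
      · rw [(hB.lb r).lb r']
        exact hw' r

/-- A state of the first cycle. -/
def c1 (x : ZMod p) : (clock p q).Q := Sum.inl (Sum.inl x)

/-- A state of the second cycle. -/
def c2 (y : ZMod q) : (clock p q).Q := Sum.inl (Sum.inr y)

theorem c1_inj {x x' : ZMod p} : (c1 x : (clock p q).Q) = c1 x' ↔ x = x' := by
  constructor
  · intro h
    exact Sum.inl_injective (Sum.inl_injective h)
  · rintro rfl; rfl

theorem c2_inj {y y' : ZMod q} : (c2 y : (clock p q).Q) = c2 y' ↔ y = y' := by
  constructor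
  · intro h
    exact Sum.inr_injective (Sum.inl_injective h)
  · rintro rfl; rfl

theorem c1_ne_c2 {x : ZMod p} {y : ZMod q} : (c1 x : (clock p q).Q) ≠ c2 y := by
  intro h
  have := Sum.inl_injective h
  cases this

theorem run_rot_c1 (x : ZMod p) (r) : (clock p q).run (c1 x) [la 0, lb r] = c1 (x + 1) := by
  rfl

theorem run_rot_c2 (y : ZMod q) (r) : (clock p q).run (c2 y) [la 0, lb r] = c2 (y + 1) := by
  rfl

theorem run_mrg_c1_zero (r) : (clock p q).run (c1 0) [la 1, lb r] = c2 r.1 := by
  show (Sum.inl (bmove p q r (amove p q 1 (Sum.inl 0))) : St p q) = _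
  simp [amove, bmove, c2]

theorem run_mrg_c2_zero (r) : (clock p q).run (c2 0) [la 1, lb r] = c2 r.1 := by
  show (Sum.inl (bmove p q r (amove p q 1 (Sum.inr 0))) : St p q) = _
  simp [amove, bmove, c2]

theorem run_mrg_c1 {x : ZMod p} (hx : x ≠ 0) (r) :
    (clock p q).run (c1 x) [la 1, lb r] = c1 x := by
  show (Sum.inl (bmove p q r (amove p q 1 (Sum.inl x))) : St p q) = _
  simp [amove, bmove, c1, hx]

theorem run_mrg_c2 {y : ZMod q} (hy : y ≠ 0) (r) :
    (clock p q).run (c2 y) [la 1, lb r] = c2 y := by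
  show (Sum.inl (bmove p q r (amove p q 1 (Sum.inr y))) : St p q) = _
  simp [amove, bmove, c2, hy]

theorem run_cnv_c1 (x : ZMod p) (r) :
    (clock p q).run (c1 x) [la 2, lb r] = c1 x := by
  show (Sum.inl (bmove p q r (amove p q 2 (Sum.inl x))) : St p q) = _
  simp [amove, bmove, c1]

theorem run_cnv_c2_zero (r) : (clock p q).run (c2 0) [la 2, lb r] = c1 r.2 := by
  show (Sum.inl (bmove p q r (amove p q 2 (Sum.inr 0))) : St p q) = _
  simp [amove, bmove, c1]

theorem run_cnv_c2 {y : ZMod q} (hy : y ≠ 0) (r) :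
    (clock p q).run (c2 y) [la 2, lb r] = c2 y := by
  show (Sum.inl (bmove p q r (amove p q 2 (Sum.inr y))) : St p q) = _
  simp [amove, bmove, c2, hy]

theorem run_lb_c1 (x : ZMod p) (r) : (clock p q).run (c1 x) [lb r] = c1 x := rfl

theorem run_lb_c2 (y : ZMod q) (r) : (clock p q).run (c2 y) [lb r] = c2 y := rfl

theorem mem_img {A : Aut} {P : Set A.Q} {z z' : A.Q} {w : List A.S} (h : z ∈ P)
    (hz : A.run z w = z') : z' ∈ A.img P w := ⟨z, h, hz⟩

theorem APhase.next {P : Set (clock p q).Q} (h : APhase P) (α : Fin 3) (r) :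
    APhase ((clock p q).img P [SG.la α, SG.lb r]) := by
  rw [img_cons]
  exact (h.la α).lb r

theorem ncard_img_le {A : Aut} (P : Set A.Q) (w : List A.S) : (A.img P w).ncard ≤ P.ncard :=
  Set.ncard_image_le (Set.toFinite _)

/-! ### Alice wins -/

theorem exists_meet (hpq : Nat.Coprime p q) (x : ZMod p) (y : ZMod q) :
    ∃ t : ℕ, x + t = 0 ∧ y + t = 0 := by
  obtain ⟨t, h1, h2⟩ := Nat.chineseRemainder hpq (-x).val (-y).val
  refine ⟨t, ?_, ?_⟩
  · have := (ZMod.natCast_eq_natCast_iff _ _ _).2 h1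
    rw [this, ZMod.natCast_val, ZMod.cast_id, add_neg_cancel]
  · have := (ZMod.natCast_eq_natCast_iff _ _ _).2 h2
    rw [this, ZMod.natCast_val, ZMod.cast_id, add_neg_cancel]

/-- The induction hypothesis: smaller sets are winning. -/
def Smaller (n : ℕ) (p q : ℕ) [NeZero p] [NeZero q] : Prop :=
  ∀ P : Set (clock p q).Q, APhase P → P.Nonempty → P.ncard < n → Win (clock p q) 2 P

theorem win_mixed {n : ℕ} (hn : Smaller n p q) (t : ℕ) :
    ∀ (P : Set (clock p q).Q) (x : ZMod p) (y : ZMod q), APhase P → P.ncard ≤ n →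
      c1 x ∈ P → c2 y ∈ P → x + t = 0 → y + t = 0 → Win (clock p q) 2 P := by
  induction t with
  | zero =>
    intro P x y hP hc hx hy hx0 hy0
    have hx0 : x = 0 := by simpa using hx0
    have hy0 : y = 0 := by simpa using hy0
    subst hx0 hy0
    refine hP.round ⟨_, hx⟩ 1 fun r => ?_
    refine hn _ (hP.next 1 r) ⟨_, mem_img hx (run_mrg_c1_zero r)⟩ (lt_of_lt_of_le ?_ hc)
    refine lt_of_le_of_ne (ncard_img_le _ _) fun he => ?_
    have hinj := (Set.ncard_image_iff (Set.toFinite P)).1 he
    have := hinj hx hy (by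
      show (clock p q).run _ _ = (clock p q).run _ _
      rw [run_mrg_c1_zero, run_mrg_c2_zero])
    exact c1_ne_c2 this
  | succ t ih =>
    intro P x y hP hc hx hy hx0 hy0
    refine hP.round ⟨_, hx⟩ 0 fun r => ?_
    refine ih _ (x + 1) (y + 1) (hP.next 0 r) ((ncard_img_le _ _).trans hc)
      (mem_img hx (run_rot_c1 x r)) (mem_img hy (run_rot_c2 y r)) ?_ ?_
    · rw [← hx0]; push_cast; ring
    · rw [← hy0]; push_cast; ring

theorem win_first {n : ℕ} (hpq : Nat.Coprime p q) (hn : Smaller n p q) (t : ℕ) :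
    ∀ (P : Set (clock p q).Q) (x x' : ZMod p), APhase P → P.ncard ≤ n →
      c1 x ∈ P → c1 x' ∈ P → x ≠ x' → x + t = 0 → Win (clock p q) 2 P := by
  induction t with
  | zero =>
    intro P x x' hP hc hx hx' hne hx0
    have hx0 : x = 0 := by simpa using hx0
    subst hx0
    refine hP.round ⟨_, hx⟩ 1 fun r => ?_
    obtain ⟨t, h1, h2⟩ := exists_meet hpq x' r.1
    exact win_mixed hn t _ x' r.1 (hP.next 1 r) ((ncard_img_le _ _).trans hc)
      (mem_img hx' (run_mrg_c1 hne.symm r)) (mem_img hx (run_mrg_c1_zero r)) h1 h2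
  | succ t ih =>
    intro P x x' hP hc hx hx' hne hx0
    refine hP.round ⟨_, hx⟩ 0 fun r => ?_
    refine ih _ (x + 1) (x' + 1) (hP.next 0 r) ((ncard_img_le _ _).trans hc)
      (mem_img hx (run_rot_c1 x r)) (mem_img hx' (run_rot_c1 x' r)) ?_ ?_
    · intro h; exact hne (add_right_cancel h)
    · rw [← hx0]; push_cast; ring

theorem win_second {n : ℕ} (hpq : Nat.Coprime p q) (hn : Smaller n p q) (t : ℕ) :
    ∀ (P : Set (clock p q).Q) (y y' : ZMod q), APhase P → P.ncard ≤ n →
      c2 y ∈ P → c2 y' ∈ P → y ≠ y' → y + t = 0 → Win (clock p q) 2 P := by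
  induction t with
  | zero =>
    intro P y y' hP hc hy hy' hne hy0
    have hy0 : y = 0 := by simpa using hy0
    subst hy0
    refine hP.round ⟨_, hy⟩ 2 fun r => ?_
    obtain ⟨t, h1, h2⟩ := exists_meet hpq r.2 y'
    exact win_mixed hn t _ r.2 y' (hP.next 2 r) ((ncard_img_le _ _).trans hc)
      (mem_img hy (run_cnv_c2_zero r)) (mem_img hy' (run_cnv_c2 hne.symm r)) h1 h2
  | succ t ih =>
    intro P y y' hP hc hy hy' hne hy0
    refine hP.round ⟨_, hy⟩ 0 fun r => ?_
    refine ih _ (y + 1) (y' + 1) (hP.next 0 r) ((ncard_img_le _ _).trans hc)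
      (mem_img hy (run_rot_c2 y r)) (mem_img hy' (run_rot_c2 y' r)) ?_ ?_
    · intro h; exact hne (add_right_cancel h)
    · rw [← hy0]; push_cast; ring

theorem exists_zero {m : ℕ} [NeZero m] (x : ZMod m) : ∃ t : ℕ, x + t = 0 := by
  refine ⟨(-x).val, ?_⟩
  rw [ZMod.natCast_val, ZMod.cast_id, add_neg_cancel]

theorem APhase.win (hpq : Nat.Coprime p q) (n : ℕ) : Smaller n p q := by
  induction n with
  | zero => intro P _ _ h; omega
  | succ n ih =>
    intro P hP hne hc
    by_cases h1 : P.ncard ≤ 1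
    · have h1 : P.ncard = 1 := by
        have := (Set.ncard_pos (Set.toFinite P)).2 hne
        omega
      obtain ⟨z, rfl⟩ := Set.ncard_eq_one.1 h1
      exact Win.singleton z
    · have h2 : 1 < P.ncard := by omega
      obtain ⟨z, hz, z', hz', hzz⟩ := (Set.one_lt_ncard (Set.toFinite P)).1 h2
      have hc : P.ncard ≤ n := by omega
      obtain ⟨w, rfl⟩ := hP z hz
      obtain ⟨w', rfl⟩ := hP z' hz'
      rcases w with x | y <;> rcases w' with x' | y'
      · obtain ⟨t, ht⟩ := exists_zero x
        exact win_first hpq ih t P x x' hP hc hz hz' (fun h => hzz (by rw [h])) ht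
      · obtain ⟨t, h1, h2⟩ := exists_meet hpq x y'
        exact win_mixed ih t P x y' hP hc hz hz' h1 h2
      · obtain ⟨t, h1, h2⟩ := exists_meet hpq x' y
        exact win_mixed ih t P x' y hP hc hz' hz h1 h2
      · obtain ⟨t, ht⟩ := exists_zero y
        exact win_second hpq ih t P y y' hP hc hz hz' (fun h => hzz (by rw [h])) ht

theorem pure_win (hpq : Nat.Coprime p q) {P : Set (clock p q).Q} (hne : P.Nonempty)
    (h : APhase P ∨ BPhase P) : Win (clock p q) 2 P := by
  rcases h with h | h
  · exact APhase.win hpq _ P h hne (Nat.lt_succ_self _)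
  · exact h.win hne 2

theorem pure_img {P : Set (clock p q).Q} (hne : P.Nonempty)
    (h : APhase P ∨ BPhase P) (u : List (clock p q).S) :
    APhase ((clock p q).img P u) ∨ BPhase ((clock p q).img P u) := by
  induction u generalizing P with
  | nil => rw [img_nil]; exact h
  | cons a u ih =>
    rw [img_cons]
    refine ih (hne.image _) ?_
    rcases letter_cases a with ⟨α, rfl⟩ | ⟨r, rfl⟩
    · rcases h with h | h
      · exact Or.inr (h.la α)
      · right
        rw [h.la hne]
        rintro z rfl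
        exact ⟨_, rfl⟩
    · rcases h with h | h
      · rw [h.lb]; exact Or.inl h
      · exact Or.inl (h.lb r)

theorem win_univ (hpq : Nat.Coprime p q) : ∃ N, (clock p q).WinsIn 2 N Set.univ := by
  show Win (clock p q) 2 Set.univ
  refine Win.step (lb (0, 0)) fun u _ => ?_
  have h0 : APhase ((clock p q).img Set.univ [lb (0, 0)]) := by
    rintro _ ⟨z, _, rfl⟩
    rcases z with z | z
    · exact ⟨_, rfl⟩
    · exact ⟨_, rfl⟩
  have hne : ((clock p q).img Set.univ [lb (0, 0)]).Nonempty :=
    img_nonempty Set.univ_nonempty _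
  exact pure_win hpq (img_nonempty hne _) (pure_img hne (Or.inl h0) u)

end Pool.Agent.R561.SG
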