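import Pool.Agent.R561.SG.Game

/-!
# Bob's strategy in the two-clock automaton

With `p = 8 * l - 1` and `q = 8 * l`, Bob keeps an eye on at most `l` tokens. A token of the first
cycle has a coordinate `b` and is in the state `T - b` after `T` turns, a token of the second cycle
has a coordinate `c` and is in the state `T + c`. The coordinates are taken from two short
intervals for each cycle, and the time is divided into periods of `2 * l * p` turns. In every
period only one pair of intervals is hot (can meet at the zeros), and in this period Bob puts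
tokens back into the cold intervals only. Therefore in every period at most one half of the tokens
is lost.
-/

set_option autoImplicit false

namespace Pool.Agent.R561.SG

/-- The admissible coordinates of tokens in the first cycle. -/
def AllX (l b : ℕ) : Prop := b < l ∨ (4 * l ≤ b ∧ b < 5 * l)

/-- The admissible coordinates of tokens in the second cycle. -/
def AllY (l c : ℕ) : Prop := c < l ∨ (2 * l ≤ c ∧ c < 3 * l)

/-- The coordinate `b` belongs to the interval which is hot in the period `j`. -/
def HotX (l j b : ℕ) : Prop := 2 ≤ j % 4 ↔ 4 * l ≤ b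

/-- The coordinate `c` belongs to the interval which is hot in the period `j`. -/
def HotY (l j c : ℕ) : Prop := j % 2 = 1 ↔ 2 * l ≤ c

theorem AllX.lt {l b : ℕ} (h : AllX l b) : b < 5 * l := by
  rcases h with h | h <;> omega

theorem AllY.lt {l c : ℕ} (h : AllY l c) : c < 3 * l := by
  rcases h with h | h <;> omega

theorem hot_of_meet {l p q T b c : ℕ} (hl : 0 < l) (hp : p + 1 = 8 * l) (hq : q = 8 * l)
    (hb : AllX l b) (hc : AllY l c) (h1 : (T : ZMod p) - b = 0) (h2 : (T : ZMod q) + c = 0) :
    HotX l (T / (2 * l * p)) b ∧ HotY l (T / (2 * l * p)) c := by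
  have hbl := hb.lt
  have hcl := hc.lt
  have hbp : b < p := by omega
  have e1 : T % p = b := by
    have h3 : (T : ZMod p) = (b : ZMod p) := sub_eq_zero.1 h1
    have h4 := (ZMod.natCast_eq_natCast_iff _ _ _).1 h3
    have h5 : T % p = b % p := h4
    rw [h5, Nat.mod_eq_of_lt hbp]
  have e2 : q ∣ T + c := by
    rw [← ZMod.natCast_eq_zero_iff]
    push_cast
    exact h2
  obtain ⟨a, ha⟩ : ∃ a, a = T / p := ⟨_, rfl⟩
  have e3 : T = p * a + b := by
    rw [ha, ← e1]
    exact (Nat.div_add_mod T p).symm
  have e4 : a % (8 * l) = b + c := by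
    obtain ⟨m, hm⟩ := e2
    have h6 : a + 8 * l * m = 8 * l * a + (b + c) := by
      have h7 : p * a + a = 8 * l * a := by rw [← hp]; ring
      rw [hq] at hm
      omega
    have h8 : (a + 8 * l * m) % (8 * l) = (8 * l * a + (b + c)) % (8 * l) := by rw [h6]
    rw [Nat.add_mul_mod_self_left, Nat.mul_add_mod, Nat.mod_eq_of_lt (show b + c < 8 * l by omega)]
      at h8
    exact h8
  have e5 : T / (2 * l * p) = a / (2 * l) := by
    rw [ha, Nat.div_div_eq_div_mul, mul_comm]
  have e6 : T / (2 * l * p) % 4 = (b + c) / (2 * l) := by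
    rw [e5, ← e4, ← Nat.mod_mul_right_div_self]
    congr 2
    ring
  have e7 : T / (2 * l * p) % 2 = (b + c) / (2 * l) % 2 := by
    rw [← e6]
    omega
  have key : ∀ s, 2 * l * s ≤ b + c → b + c < 2 * l * s + 2 * l → (b + c) / (2 * l) = s := by
    intro s h3 h4
    have h5 : b + c = 2 * l * s + (b + c - 2 * l * s) := by omega
    rw [h5, Nat.mul_add_div (by omega), Nat.div_eq_of_lt (by omega), add_zero]
  unfold HotX HotY
  rw [e6, e7]
  rcases hb with hb | ⟨hb, hb'⟩ <;> rcases hc with hc | ⟨hc, hc'⟩
  · rw [key 0 (by omega) (by omega)]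
    constructor
    · constructor <;> intro h <;> omega
    · constructor <;> intro h <;> omega
  · rw [key 1 (by omega) (by omega)]
    constructor
    · constructor <;> intro h <;> omega
    · constructor <;> intro h <;> omega
  · rw [key 2 (by omega) (by omega)]
    constructor
    · constructor <;> intro h <;> omega
    · constructor <;> intro h <;> omega
  · rw [key 3 (by omega) (by omega)]
    constructor
    · constructor <;> intro h <;> omega
    · constructor <;> intro h <;> omega

open Classical in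
/-- The number of elements which do not belong to the hot interval. -/
noncomputable def cold (H : ℕ → Prop) (X : Finset ℕ) : ℕ := (X.filter fun b => ¬ H b).card

theorem cold_le (H : ℕ → Prop) (X : Finset ℕ) : cold H X ≤ X.card := by
  classical
  unfold cold
  exact Finset.card_filter_le _ _

theorem cold_eq_card {H : ℕ → Prop} {X : Finset ℕ} (h : ∀ b ∈ X, ¬ H b) : cold H X = X.card := by
  classical
  unfold cold
  rw [Finset.filter_true_of_mem h]

theorem cold_erase (H : ℕ → Prop) (X : Finset ℕ) (b : ℕ) :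
    cold H X ≤ cold H (X.erase b) + 1 := by
  classical
  unfold cold
  refine le_trans (Finset.card_le_card (t := insert b ((X.erase b).filter fun b => ¬ H b)) ?_)
    (Finset.card_insert_le _ _)
  intro x hx
  simp only [Finset.mem_filter, Finset.mem_insert, Finset.mem_erase] at hx ⊢
  tauto

theorem cold_erase_of_hot {H : ℕ → Prop} (X : Finset ℕ) {b : ℕ} (hb : H b) :
    cold H X ≤ cold H (X.erase b) := by
  classical
  unfold cold
  refine Finset.card_le_card ?_
  intro x hx
  simp only [Finset.mem_filter, Finset.mem_erase] at hx ⊢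
  refine ⟨⟨?_, hx.1⟩, hx.2⟩
  rintro rfl
  exact hx.2 hb

theorem cold_insert {H : ℕ → Prop} {X : Finset ℕ} {b : ℕ} (hb : ¬ H b) (hX : b ∉ X) :
    cold H (insert b X) = cold H X + 1 := by
  classical
  unfold cold
  rw [Finset.filter_insert, if_pos hb, Finset.card_insert_of_notMem]
  simp [hX]

theorem exists_free {l : ℕ} (s : ℕ) (F : Finset ℕ) (hF : F.card < l) :
    ∃ c, s ≤ c ∧ c < s + l ∧ c ∉ F := by
  by_contra hc
  push Not at hc
  have : Finset.Ico s (s + l) ⊆ F := by
    intro c hc'
    rw [Finset.mem_Ico] at hc'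
    exact hc c hc'.1 hc'.2
  have := Finset.card_le_card this
  rw [Nat.card_Ico] at this
  omega

theorem exists_coldX {l : ℕ} (j : ℕ) (F : Finset ℕ) (hF : F.card < l) :
    ∃ b, AllX l b ∧ ¬ HotX l j b ∧ b ∉ F := by
  unfold AllX HotX
  by_cases h : 2 ≤ j % 4
  · obtain ⟨c, h1, h2, h3⟩ := exists_free 0 F hF
    exact ⟨c, by omega, by omega, h3⟩
  · obtain ⟨c, h1, h2, h3⟩ := exists_free (4 * l) F hF
    exact ⟨c, by omega, by omega, h3⟩

theorem exists_coldY {l : ℕ} (j : ℕ) (F : Finset ℕ) (hF : F.card < l) :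
    ∃ c, AllY l c ∧ ¬ HotY l j c ∧ c ∉ F := by
  unfold AllY HotY
  by_cases h : j % 2 = 1
  · obtain ⟨c, h1, h2, h3⟩ := exists_free 0 F hF
    exact ⟨c, by omega, by omega, h3⟩
  · obtain ⟨c, h1, h2, h3⟩ := exists_free (2 * l) F hF
    exact ⟨c, by omega, by omega, h3⟩

variable {p q : ℕ} [NeZero p] [NeZero q]

/-- The tokens on which Bob keeps an eye, after `T` turns. -/
structure Good (l J T : ℕ) (P : Set (clock p q).Q) (X Y : Finset ℕ) : Prop where
  aX : ∀ b ∈ X, AllX l b
  aY : ∀ c ∈ Y, AllY l c
  mX : ∀ b ∈ X, c1 ((T : ZMod p) - (b : ZMod p)) ∈ P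
  mY : ∀ c ∈ Y, c2 ((T : ZMod q) + (c : ZMod q)) ∈ P
  cnt : X.card + Y.card ≤ l
  pot : 2 ^ (J + 1) ≤ (X.card + Y.card + cold (HotX l (T / (2 * l * p))) X +
    cold (HotY l (T / (2 * l * p))) Y) * 2 ^ (T / (2 * l * p))

theorem cast_inj {m a b : ℕ} (ha : a < m) (hb : b < m) (h : (a : ZMod m) = b) : a = b := by
  have h1 := (ZMod.natCast_eq_natCast_iff _ _ _).1 h
  have h2 : a % m = b % m := h1
  rwa [Nat.mod_eq_of_lt ha, Nat.mod_eq_of_lt hb] at h2

theorem Good.le_ncard {l J T : ℕ} {P : Set (clock p q).Q} {X Y : Finset ℕ}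
    (hp : p + 1 = 8 * l) (hq : q = 8 * l) (h : Good l J T P X Y) :
    X.card + Y.card ≤ P.ncard := by
  have h1 : ((fun b : ℕ => (c1 ((T : ZMod p) - b) : (clock p q).Q)) '' (X : Set ℕ)).ncard
      = X.card := by
    rw [Set.InjOn.ncard_image, Set.ncard_coe_finset]
    intro b hb b' hb' hbb
    have h2 := sub_right_injective (c1_inj.1 hbb)
    have h3 := (h.aX b hb).lt
    have h4 := (h.aX b' hb').lt
    exact cast_inj (by omega) (by omega) h2
  have h2 : ((fun c : ℕ => (c2 ((T : ZMod q) + c) : (clock p q).Q)) '' (Y : Set ℕ)).ncard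
      = Y.card := by
    rw [Set.InjOn.ncard_image, Set.ncard_coe_finset]
    intro b hb b' hb' hbb
    have h2 := add_left_cancel (c2_inj.1 hbb)
    have h3 := (h.aY b hb).lt
    have h4 := (h.aY b' hb').lt
    exact cast_inj (by omega) (by omega) h2
  rw [← h1, ← h2, ← Set.ncard_union_eq]
  · refine Set.ncard_le_ncard ?_ (Set.toFinite _)
    rintro z (⟨b, hb, rfl⟩ | ⟨c, hc, rfl⟩)
    · exact h.mX b hb
    · exact h.mY c hc
  · rw [Set.disjoint_left]
    rintro z ⟨b, _, rfl⟩ ⟨c, _, hc⟩
    exact c1_ne_c2 hc.symm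

/-- In a good position before the end of the period `J` there are at least two tokens. -/
theorem pot_two {J j x y xc yc : ℕ} (hj : j < J) (hxc : xc ≤ x) (hyc : yc ≤ y)
    (h : 2 ^ (J + 1) ≤ (x + y + xc + yc) * 2 ^ j) : 2 ≤ x + y := by
  by_contra hc
  have h1 : (x + y + xc + yc) ≤ 3 := by omega
  have h2 : (2 : ℕ) ^ (j + 2) ≤ 2 ^ (J + 1) := Nat.pow_le_pow_right (by norm_num) (by omega)
  have h3 : (2 : ℕ) ^ (j + 2) = 4 * 2 ^ j := by ring
  have h4 : 0 < (2 : ℕ) ^ j := by positivity
  have h5 : (x + y + xc + yc) * 2 ^ j ≤ 3 * 2 ^ j := Nat.mul_le_mul_right _ h1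
  omega

theorem Good.two {l J T : ℕ} {P : Set (clock p q).Q} {X Y : Finset ℕ}
    (h : Good l J T P X Y) (hT : T < J * (2 * l * p)) : 2 ≤ X.card + Y.card := by
  have hj : T / (2 * l * p) < J := Nat.div_lt_of_lt_mul (by rwa [mul_comm] at hT)
  exact pot_two hj (cold_le _ _) (cold_le _ _) h.pot

theorem Good.rot {l J T : ℕ} {P : Set (clock p q).Q} {X Y : Finset ℕ}
    (h : Good l J T P X Y) (r : ZMod q × ZMod p) :
    Good l J (T + 1) ((clock p q).img P [la 0, lb r]) X Y := by
  refine ⟨h.aX, h.aY, fun b hb => ?_, fun c hc => ?_, h.cnt, ?_⟩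
  · refine mem_img (h.mX b hb) ?_
    rw [run_rot_c1, c1_inj]
    push_cast; ring
  · refine mem_img (h.mY c hc) ?_
    rw [run_rot_c2, c2_inj]
    push_cast; ring
  · have h1 := h.pot
    rw [Nat.succ_div]
    split_ifs with hd
    · have h2 := cold_le (HotX l (T / (2 * l * p))) X
      have h3 := cold_le (HotY l (T / (2 * l * p))) Y
      refine h1.trans ?_
      rw [pow_succ, ← mul_assoc, mul_comm _ 2, ← mul_assoc]
      refine Nat.mul_le_mul_right _ ?_
      omega
    · exact h1

theorem Good.step {l J T : ℕ} {P : Set (clock p q).Q} {X Y : Finset ℕ} (hl : 0 < l)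
    (hp : p + 1 = 8 * l) (hq : q = 8 * l) (h : Good l J T P X Y) (hT : T < J * (2 * l * p))
    (a : (clock p q).S) :
    ∃ u : List (clock p q).S, u.length ≤ 2 ∧ ∃ T' ≤ T + 1, ∃ X' Y' : Finset ℕ,
      Good l J T' ((clock p q).img ((clock p q).img P [a]) u) X' Y' ∧
      2 ≤ X'.card + Y'.card := by
  have hXY := h.two hT
  -- other tokens are not at zero
  have oX : ∀ b0 ∈ X, (T : ZMod p) - b0 = 0 → ∀ b ∈ X.erase b0, (T : ZMod p) - b ≠ 0 := by
    intro b0 hb0 h0 b hb hb'
    rw [Finset.mem_erase] at hb
    apply hb.1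
    have h1 : (b : ZMod p) = b0 := by
      rw [sub_eq_zero] at h0 hb'
      rw [← h0, ← hb']
    have h3 := (h.aX b hb.2).lt
    have h4 := (h.aX b0 hb0).lt
    exact cast_inj (by omega) (by omega) h1
  have oY : ∀ c0 ∈ Y, (T : ZMod q) + c0 = 0 → ∀ c ∈ Y.erase c0, (T : ZMod q) + c ≠ 0 := by
    intro b0 hb0 h0 b hb hb'
    rw [Finset.mem_erase] at hb
    apply hb.1
    have h1 : (b : ZMod q) = b0 := by
      rw [← h0] at hb'
      exact add_left_cancel hb'
    have h3 := (h.aY b hb.2).lt
    have h4 := (h.aY b0 hb0).lt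
    exact cast_inj (by omega) (by omega) h1
  rcases letter_cases a with ⟨α, rfl⟩ | ⟨r, rfl⟩
  swap
  · refine ⟨[], by simp, T, by omega, X, Y, ⟨h.aX, h.aY, fun b hb => ?_, fun c hc => ?_, h.cnt,
      h.pot⟩, hXY⟩
    · rw [img_nil]
      exact mem_img (h.mX b hb) (run_lb_c1 _ r)
    · rw [img_nil]
      exact mem_img (h.mY c hc) (run_lb_c2 _ r)
  fin_cases α
  · -- turn
    refine ⟨[lb (0, 0)], by simp, T + 1, le_rfl, X, Y, ?_, hXY⟩
    have := h.rot (0, 0)
    rw [img_cons] at this
    exact this
  · -- the letter `1`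
    by_cases hb : ∃ b0 ∈ X, (T : ZMod p) - b0 = 0
    · obtain ⟨b0, hb0, hb00⟩ := hb
      by_cases hc : ∃ c0 ∈ Y, (T : ZMod q) + c0 = 0
      · obtain ⟨c0, hc0, hc00⟩ := hc
        obtain ⟨hot1, hot2⟩ := hot_of_meet hl hp hq (h.aX b0 hb0) (h.aY c0 hc0) hb00 hc00
        have hcX := Finset.card_erase_add_one hb0
        have hcY := Finset.card_erase_add_one hc0
        have hcnt := h.cnt
        obtain ⟨c', hc'1, hc'2, hc'3⟩ := exists_coldY (l := l) (T / (2 * l * p)) (Y.erase c0)
          (by omega)
        have hpot : 2 ^ (J + 1) ≤ ((X.erase b0).card + (insert c' (Y.erase c0)).card +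
            cold (HotX l (T / (2 * l * p))) (X.erase b0) +
            cold (HotY l (T / (2 * l * p))) (insert c' (Y.erase c0))) *
              2 ^ (T / (2 * l * p)) := by
          refine h.pot.trans (Nat.mul_le_mul_right _ ?_)
          rw [cold_insert hc'2 hc'3, Finset.card_insert_of_notMem hc'3]
          have h1 := cold_erase_of_hot X hot1
          have h2 := cold_erase_of_hot Y hot2
          omega
        have hj : T / (2 * l * p) < J := Nat.div_lt_of_lt_mul (by rwa [mul_comm] at hT)
        refine ⟨[lb ((T : ZMod q) + c', 0)], by simp, T, by omega, X.erase b0,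
          insert c' (Y.erase c0), ⟨fun b hb => h.aX b (Finset.mem_of_mem_erase hb), ?_,
          fun b hb => ?_, fun c hc => ?_, ?_, hpot⟩, ?_⟩
        · intro c hc
          rcases Finset.mem_insert.1 hc with rfl | hc
          · exact hc'1
          · exact h.aY c (Finset.mem_of_mem_erase hc)
        · rw [← img_cons]
          exact mem_img (h.mX b (Finset.mem_of_mem_erase hb)) (run_mrg_c1 (oX b0 hb0 hb00 b hb) _)
        · rw [← img_cons]
          rcases Finset.mem_insert.1 hc with rfl | hc
          · have h1 := h.mX b0 hb0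
            rw [hb00] at h1
            exact mem_img h1 (run_mrg_c1_zero _)
          · exact mem_img (h.mY c (Finset.mem_of_mem_erase hc))
              (run_mrg_c2 (oY c0 hc0 hc00 c hc) _)
        · rw [Finset.card_insert_of_notMem hc'3]
          omega
        · exact pot_two hj (cold_le _ _) (cold_le _ _) hpot
      · push Not at hc
        have hcX := Finset.card_erase_add_one hb0
        have hcnt := h.cnt
        obtain ⟨c', hc'1, hc'2, hc'3⟩ := exists_coldY (l := l) (T / (2 * l * p)) Y (by omega)
        have hpot : 2 ^ (J + 1) ≤ ((X.erase b0).card + (insert c' Y).card +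
            cold (HotX l (T / (2 * l * p))) (X.erase b0) +
            cold (HotY l (T / (2 * l * p))) (insert c' Y)) * 2 ^ (T / (2 * l * p)) := by
          refine h.pot.trans (Nat.mul_le_mul_right _ ?_)
          rw [cold_insert hc'2 hc'3, Finset.card_insert_of_notMem hc'3]
          have h1 := cold_erase (HotX l (T / (2 * l * p))) X b0
          omega
        have hj : T / (2 * l * p) < J := Nat.div_lt_of_lt_mul (by rwa [mul_comm] at hT)
        refine ⟨[lb ((T : ZMod q) + c', 0)], by simp, T, by omega, X.erase b0,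
          insert c' Y, ⟨fun b hb => h.aX b (Finset.mem_of_mem_erase hb), ?_,
          fun b hb => ?_, fun c hcY => ?_, ?_, hpot⟩, ?_⟩
        · intro c hc
          rcases Finset.mem_insert.1 hc with rfl | hc
          · exact hc'1
          · exact h.aY c hc
        · rw [← img_cons]
          exact mem_img (h.mX b (Finset.mem_of_mem_erase hb)) (run_mrg_c1 (oX b0 hb0 hb00 b hb) _)
        · rw [← img_cons]
          rcases Finset.mem_insert.1 hcY with rfl | hcY
          · have h1 := h.mX b0 hb0
            rw [hb00] at h1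
            exact mem_img h1 (run_mrg_c1_zero _)
          · exact mem_img (h.mY c hcY) (run_mrg_c2 (hc c hcY) _)
        · rw [Finset.card_insert_of_notMem hc'3]
          omega
        · exact pot_two hj (cold_le _ _) (cold_le _ _) hpot
    · push Not at hb
      by_cases hc : ∃ c0 ∈ Y, (T : ZMod q) + c0 = 0
      · obtain ⟨c0, hc0, hc00⟩ := hc
        have hcY := Finset.card_erase_add_one hc0
        have hcnt := h.cnt
        obtain ⟨c', hc'1, hc'2, hc'3⟩ := exists_coldY (l := l) (T / (2 * l * p)) (Y.erase c0)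
          (by omega)
        have hpot : 2 ^ (J + 1) ≤ (X.card + (insert c' (Y.erase c0)).card +
            cold (HotX l (T / (2 * l * p))) X +
            cold (HotY l (T / (2 * l * p))) (insert c' (Y.erase c0))) *
              2 ^ (T / (2 * l * p)) := by
          refine h.pot.trans (Nat.mul_le_mul_right _ ?_)
          rw [cold_insert hc'2 hc'3, Finset.card_insert_of_notMem hc'3]
          have h1 := cold_erase (HotY l (T / (2 * l * p))) Y c0
          omega
        have hj : T / (2 * l * p) < J := Nat.div_lt_of_lt_mul (by rwa [mul_comm] at hT)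
        refine ⟨[lb ((T : ZMod q) + c', 0)], by simp, T, by omega, X,
          insert c' (Y.erase c0), ⟨h.aX, ?_, fun b hb' => ?_, fun c hc => ?_, ?_, hpot⟩, ?_⟩
        · intro c hc
          rcases Finset.mem_insert.1 hc with rfl | hc
          · exact hc'1
          · exact h.aY c (Finset.mem_of_mem_erase hc)
        · rw [← img_cons]
          exact mem_img (h.mX b hb') (run_mrg_c1 (hb b hb') _)
        · rw [← img_cons]
          rcases Finset.mem_insert.1 hc with rfl | hc
          · have h1 := h.mY c0 hc0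
            rw [hc00] at h1
            exact mem_img h1 (run_mrg_c2_zero _)
          · exact mem_img (h.mY c (Finset.mem_of_mem_erase hc))
              (run_mrg_c2 (oY c0 hc0 hc00 c hc) _)
        · rw [Finset.card_insert_of_notMem hc'3]
          omega
        · exact pot_two hj (cold_le _ _) (cold_le _ _) hpot
      · push Not at hc
        refine ⟨[lb (0, 0)], by simp, T, by omega, X, Y, ⟨h.aX, h.aY, fun b hb' => ?_,
          fun c hc' => ?_, h.cnt, h.pot⟩, hXY⟩
        · rw [← img_cons]
          exact mem_img (h.mX b hb') (run_mrg_c1 (hb b hb') _)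
        · rw [← img_cons]
          exact mem_img (h.mY c hc') (run_mrg_c2 (hc c hc') _)
  · -- the letter `2`
    by_cases hc : ∃ c0 ∈ Y, (T : ZMod q) + c0 = 0
    · obtain ⟨c0, hc0, hc00⟩ := hc
      have hcY := Finset.card_erase_add_one hc0
      have hcnt := h.cnt
      obtain ⟨b', hb'1, hb'2, hb'3⟩ := exists_coldX (l := l) (T / (2 * l * p)) X (by omega)
      have hpot : 2 ^ (J + 1) ≤ ((insert b' X).card + (Y.erase c0).card +
          cold (HotX l (T / (2 * l * p))) (insert b' X) +
          cold (HotY l (T / (2 * l * p))) (Y.erase c0)) * 2 ^ (T / (2 * l * p)) := by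
        refine h.pot.trans (Nat.mul_le_mul_right _ ?_)
        rw [cold_insert hb'2 hb'3, Finset.card_insert_of_notMem hb'3]
        have h1 := cold_erase (HotY l (T / (2 * l * p))) Y c0
        omega
      have hj : T / (2 * l * p) < J := Nat.div_lt_of_lt_mul (by rwa [mul_comm] at hT)
      refine ⟨[lb (0, (T : ZMod p) - b')], by simp, T, by omega, insert b' X,
        Y.erase c0, ⟨?_, fun c hc => h.aY c (Finset.mem_of_mem_erase hc),
        fun b hb => ?_, fun c hc => ?_, ?_, hpot⟩, ?_⟩
      · intro b hb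
        rcases Finset.mem_insert.1 hb with rfl | hb
        · exact hb'1
        · exact h.aX b hb
      · rw [← img_cons]
        rcases Finset.mem_insert.1 hb with rfl | hb
        · have h1 := h.mY c0 hc0
          rw [hc00] at h1
          exact mem_img h1 (run_cnv_c2_zero _)
        · exact mem_img (h.mX b hb) (run_cnv_c1 _ _)
      · rw [← img_cons]
        exact mem_img (h.mY c (Finset.mem_of_mem_erase hc))
            (run_cnv_c2 (oY c0 hc0 hc00 c hc) _)
      · rw [Finset.card_insert_of_notMem hb'3]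
        omega
      · exact pot_two hj (cold_le _ _) (cold_le _ _) hpot
    · push Not at hc
      refine ⟨[lb (0, 0)], by simp, T, by omega, X, Y, ⟨h.aX, h.aY, fun b hb' => ?_,
        fun c hc' => ?_, h.cnt, h.pot⟩, hXY⟩
      · rw [← img_cons]
        exact mem_img (h.mX b hb') (run_cnv_c1 _ _)
      · rw [← img_cons]
        exact mem_img (h.mY c hc') (run_cnv_c2 (hc c hc') _)

theorem Good.not_winsIn {l J : ℕ} (hl : 0 < l) (hp : p + 1 = 8 * l) (hq : q = 8 * l) (N : ℕ) :
    ∀ (T : ℕ) (P : Set (clock p q).Q) (X Y : Finset ℕ), Good l J T P X Y →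
      T + N ≤ J * (2 * l * p) → ¬ (clock p q).WinsIn 2 N P := by
  induction N with
  | zero => intro T P X Y _ _ h; exact h
  | succ N ih =>
    rintro T P X Y hG hT ⟨a, ha⟩
    obtain ⟨u, hu, T', hT', X', Y', hG', h2⟩ := hG.step hl hp hq (by omega) a
    rcases ha with ha | ha
    · have h3 := hG'.le_ncard hp hq
      have h4 := ncard_img_le ((clock p q).img P [a]) u
      omega
    · exact ih T' _ X' Y' hG' (by omega) (ha u hu)

theorem not_winsIn_univ {J : ℕ} (hp : p + 1 = 8 * 2 ^ J) (hq : q = 8 * 2 ^ J) :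
    ¬ (clock p q).WinsIn 2 (J * (2 * 2 ^ J * p)) Set.univ := by
  have hl : 0 < 2 ^ J := by positivity
  refine Good.not_winsIn (J := J) hl hp hq _ 0 _ (Finset.Ico (4 * 2 ^ J) (5 * 2 ^ J)) ∅ ?_
    (by omega)
  have hcard : (Finset.Ico (4 * 2 ^ J) (5 * 2 ^ J)).card = 2 ^ J := by
    rw [Nat.card_Ico]; omega
  refine ⟨fun b hb => ?_, fun c hc => ?_, fun b hb => Set.mem_univ _, fun c hc => Set.mem_univ _,
    ?_, ?_⟩
  · rw [Finset.mem_Ico] at hb
    exact Or.inr hb
  · simp at hc
  · rw [hcard, Finset.card_empty]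
    omega
  · have hc : cold (HotX (2 ^ J) (0 / (2 * 2 ^ J * p))) (Finset.Ico (4 * 2 ^ J) (5 * 2 ^ J))
        = 2 ^ J := by
      rw [cold_eq_card, hcard]
      intro b hb hh
      rw [Finset.mem_Ico] at hb
      unfold HotX at hh
      rw [Nat.zero_div] at hh
      have := hh.2 hb.1
      omega
    rw [hc, hcard, Finset.card_empty, Nat.zero_div]
    have : cold (HotY (2 ^ J) 0) ∅ = 0 := by simp [cold]
    rw [this, pow_succ]
    omega

end Pool.Agent.R561.SG
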